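import Mathlib
import Pool.Agent.K1H83.NS.Stm
import Pool.Agent.TH312.J1796
import Pool.Agent.TH813.EllC

/-!
# Residues and multipliers of Serre functions (piece NX)
-/

set_option autoImplicit false

open Filter
open scoped Topology PeriodPair

noncomputable section

namespace Pool.Agent.K1H97.NS

open H667R3 Pool.Agent.W245.EB Pool.Agent.TH813.Ell Pool.Agent.TH312.J1796 Pool.Agent.K1H83.NS

variable {L : PeriodPair}

lemma tendsto_addNE (q x : ℂ) : Tendsto (fun z : ℂ => z + q) (𝓝[≠] x) (𝓝[≠] (x + q)) := by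
  refine tendsto_nhdsWithin_iff.2 ⟨?_, ?_⟩
  · have : ContinuousAt (fun z : ℂ => z + q) x := by fun_prop
    exact this.tendsto.mono_left nhdsWithin_le_nhds
  · filter_upwards [self_mem_nhdsWithin] with z hz h5
    exact hz (by simpa using h5)

lemma lat_add_nhdsNE (q x : ℂ) : ∀ᶠ z in 𝓝[≠] x, z + q ∉ L.lattice :=
  (tendsto_addNE q x).eventually (lat_nhdsNE (L := L) (x + q))

lemma sF_of_notMem {q : ℂ} (hq : q ∉ L.lattice) : sF L q = fun z => serreF L q z := by
  funext z; simp [sF, hq]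

lemma sF_of_mem {q : ℂ} (hq : q ∈ L.lattice) : sF L q = fun _ => 1 := by
  funext z; simp [sF, hq]

lemma mero_sF (q : ℂ) : Meromorphic (sF L q) := by
  by_cases hq : q ∈ L.lattice
  · rw [sF_of_mem hq]
    exact fun x => MeromorphicAt.const 1 x
  · rw [sF_of_notMem hq]
    intro x
    have h1 : AnalyticAt ℂ (sigma L) x := differentiable_sigma'.analyticAt x
    have h2 : AnalyticAt ℂ (fun z => sigma L (z + q)) x := by
      have : Differentiable ℂ (fun z => sigma L (z + q)) :=
        differentiable_sigma'.comp (differentiable_id.add_const q)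
      exact this.analyticAt x
    have h3 : AnalyticAt ℂ (fun z => Complex.exp (-(zeta L q * z))) x := by fun_prop
    exact (h2.meromorphicAt.fun_div (h1.meromorphicAt.fun_mul (MeromorphicAt.const _ x))).fun_mul
      h3.meromorphicAt

lemma sF_ne {q z : ℂ} (hz : z ∉ L.lattice) (hzq : z + q ∉ L.lattice) : sF L q z ≠ 0 := by
  by_cases hq : q ∈ L.lattice
  · rw [sF_of_mem hq]; exact one_ne_zero
  · rw [sF_of_notMem hq]; exact serreF_ne_zero L hz hq hzq

lemma logDeriv_sF {q z : ℂ} (hz : z ∉ L.lattice) (hzq : z + q ∉ L.lattice) :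
    logDeriv (sF L q) z = sT L q z := by
  by_cases hq : q ∈ L.lattice
  · rw [sF_of_mem hq]
    simp [sT, hq, logDeriv_apply]
  · rw [sF_of_notMem hq]
    have s1 := sigma_ne_zero L hz
    have s2 := sigma_ne_zero L hzq
    have s3 := sigma_ne_zero L hq
    have d1 : HasDerivAt (fun z => sigma L (z + q)) _ z := (hasDerivAt_sigma L hzq).comp_add_const z q
    have d2 := (hasDerivAt_sigma L hz).mul_const (sigma L q)
    have d3 : HasDerivAt (fun z : ℂ => Complex.exp (-(zeta L q * z)))
        (Complex.exp (-(zeta L q * z)) * (-(zeta L q * 1))) z :=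
      (((hasDerivAt_id z).const_mul (zeta L q)).fun_neg).cexp
    have d4 := (d1.fun_div d2 (mul_ne_zero s1 s3)).fun_mul d3
    have e5 : (fun z => serreF L q z) = fun z => sigma L (z + q) / (sigma L z * sigma L q) *
        Complex.exp (-(zeta L q * z)) := rfl
    rw [e5, logDeriv_apply, d4.deriv]
    simp only [sT, if_neg hq]
    have s4 := Complex.exp_ne_zero (-(zeta L q * z))
    field_simp
    ring

open Classical in
/-- the logarithm of the multiplier -/
def kap (L : PeriodPair) (q l : ℂ) : ℂ := if q ∈ L.lattice then 0 else eta L l * q - zeta L q * l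

lemma sF_add {q l : ℂ} (hl : l ∈ L.lattice) (z : ℂ) :
    sF L q (z + l) = Complex.exp (kap L q l) * sF L q z := by
  by_cases hq : q ∈ L.lattice
  · rw [sF_of_mem hq, kap, if_pos hq, Complex.exp_zero, one_mul]
  · rw [sF_of_notMem hq, kap, if_neg hq]
    exact serreF_add_coe L hl q z

/-- the first step: the residues are zero -/
lemma residues {n : ℕ} {N : Fin n → ℂ → ℂ} (β : Fin n → ℂ) (a b : ℂ)
    (hN : ∀ l, Meromorphic (N l)) {r : ℂ → Fin n → ℤ}
    (hr' : ∀ x l, meromorphicOrderAt (N l) x = (r x l : ℤ))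
    (h : ∀ x, (fun z => ∑ l, β l * logDeriv (N l) z + a + b * ℘[L] z) =ᶠ[𝓝[≠] x] fun _ => 0)
    (x : ℂ) : ∑ l, β l * (r x l : ℂ) = 0 := by
  set S : ℂ → ℂ := fun z => ∑ l, β l * logDeriv (N l) z with hS
  set G : ℂ → ℂ := fun z => b * logDeriv (sigma L) z with hG
  have hGm : Meromorphic G := fun x => (MeromorphicAt.const b x).mul (mero_logDeriv_sigma x)
  have hGd : deriv G =ᶠ[𝓝[≠] x] fun z => S z + a := by
    filter_upwards [h x, lat_nhdsNE (L := L) x] with z h1 h3
    have h4 : HasDerivAt G (b * (- ℘[L] z)) z := (deriv_logDeriv_sigma h3).const_mul b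
    rw [h4.deriv]
    simp only [hS]
    linear_combination -h1
  have hlim : Tendsto (fun z => (z - x) * (S z + a)) (𝓝[≠] x) (𝓝 (∑ l, β l * (r x l : ℂ))) := by
    have h1 : Tendsto (fun z => ∑ l, β l * ((z - x) * logDeriv (N l) z)) (𝓝[≠] x)
        (𝓝 (∑ l, β l * (r x l : ℂ))) :=
      tendsto_finsetSum _ fun l _ =>
        (tendsto_mul_logDeriv (hN l x) (hr' x l)).const_mul (β l)
    have h2 : Tendsto (fun z : ℂ => (z - x) * a) (𝓝[≠] x) (𝓝 0) := by
      have : ContinuousAt (fun z : ℂ => (z - x) * a) x := by fun_prop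
      have h3 := this.tendsto
      simp only [sub_self, zero_mul] at h3
      exact h3.mono_left nhdsWithin_le_nhds
    have h4 := h1.add h2
    rw [add_zero] at h4
    refine h4.congr fun z => ?_
    simp only [hS]
    rw [mul_add, Finset.mul_sum]
    congr 1
    exact Finset.sum_congr rfl fun l _ => by ring
  have hlim' : Tendsto (fun z => (z - x) * deriv G z) (𝓝[≠] x) (𝓝 (∑ l, β l * (r x l : ℂ))) := by
    refine hlim.congr' ?_
    filter_upwards [hGd] with z hz
    rw [hz]
  have hG0 : 0 ≤ meromorphicOrderAt G x := by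
    by_contra hneg
    push Not at hneg
    obtain ⟨q, hq⟩ : ∃ q : ℤ, meromorphicOrderAt G x = q :=
      ⟨_, (WithTop.coe_untop₀_of_ne_top hneg.ne_top).symm⟩
    have hq0 : q < 0 := by
      rw [hq] at hneg
      exact_mod_cast hneg
    have h1 : meromorphicOrderAt (deriv G) x = ((q - 1 : ℤ) : WithTop ℤ) :=
      meromorphicOrderAt_deriv_eq_sub_one (Int.cast_ne_zero.2 hq0.ne) hq
    have h2 : MeromorphicAt (fun z : ℂ => z - x) x := by fun_prop
    have h3 : MeromorphicAt (deriv G) x := (hGm x).deriv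
    have h4 := (tendsto_nhds_iff_meromorphicOrderAt_nonneg
      (f := (fun z : ℂ => z - x) * deriv G) (h2.mul h3)).1 ⟨_, hlim'⟩
    rw [meromorphicOrderAt_mul h2 h3, h1] at h4
    have h5 : meromorphicOrderAt (fun z : ℂ => z - x) x = 1 :=
      meromorphicOrderAt_id_sub_const
    rw [h5] at h4
    have h6 : (0 : WithTop ℤ) ≤ ((1 + (q - 1) : ℤ) : WithTop ℤ) := by
      push_cast
      exact h4
    have h7 : (0 : ℤ) ≤ 1 + (q - 1) := by exact_mod_cast h6
    omega
  have hFe : G =ᶠ[𝓝[≠] x] toMeromorphicNFAt G x := (hGm x).eq_nhdsNE_toMeromorphicNFAt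
  have hFa : AnalyticAt ℂ (toMeromorphicNFAt G x) x :=
    (hGm x).meromorphicOrderAt_nonneg_iff_analyticAt_toMeromorphicNFAt.1 hG0
  have h1 : deriv (toMeromorphicNFAt G x) =ᶠ[𝓝[≠] x] deriv G := hFe.symm.nhdsNE_deriv
  have h2 : Tendsto (deriv (toMeromorphicNFAt G x)) (𝓝[≠] x)
      (𝓝 (deriv (toMeromorphicNFAt G x) x)) :=
    (hFa.deriv.continuousAt.tendsto).mono_left nhdsWithin_le_nhds
  have h3 : Tendsto (deriv G) (𝓝[≠] x) (𝓝 (deriv (toMeromorphicNFAt G x) x)) := h2.congr' h1
  have h4 : Tendsto (fun z : ℂ => z - x) (𝓝[≠] x) (𝓝 0) := by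
    have : ContinuousAt (fun z : ℂ => z - x) x := by fun_prop
    have h5 := this.tendsto
    simp only [sub_self] at h5
    exact h5.mono_left nhdsWithin_le_nhds
  have h6 := h4.mul h3
  rw [zero_mul] at h6
  exact tendsto_nhds_unique hlim' h6

/-- the second step: a function without zeros and poles which is multiplied by constants under the
translations by the lattice is an exponential function -/
lemma exp_of_mult {F : ℂ → ℂ} (hF : Meromorphic F) (h0 : ∀ x, meromorphicOrderAt F x = 0)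
    {χ : ℂ → ℂ} (hm : ∀ l ∈ L.lattice, (fun z => F (z + l)) =ᶠ[codiscrete ℂ]
      fun z => Complex.exp (χ l) * F z) :
    ∃ A C : ℂ, C ≠ 0 ∧ F =ᶠ[codiscrete ℂ] fun z => C * Complex.exp (A * z) := by
  have hHm : Meromorphic (logDeriv F) := fun x => (hF x).deriv.div (hF x)
  have hH : Ellip L (logDeriv F) := by
    refine ⟨hHm, fun l hl => codisc_of_nhdsNE fun x => ?_⟩
    have h1 : ∀ᶠ z in 𝓝[≠] x, logDeriv (fun z => F (z + l)) z =
        logDeriv (fun z => Complex.exp (χ l) * F z) z :=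
      logDeriv_congr_nhdsNE (nhdsNE_of_codisc (hm l hl) x)
    filter_upwards [h1] with z h2
    have h3 : logDeriv (fun z => F (z + l)) z = logDeriv F (z + l) := by
      rw [logDeriv_apply, logDeriv_apply, deriv_comp_add_const]
    have h4 : logDeriv (fun z => Complex.exp (χ l) * F z) z = logDeriv F z := by
      rw [logDeriv_apply, logDeriv_apply, deriv_const_mul_field]
      have := Complex.exp_ne_zero (χ l)
      exact mul_div_mul_left _ _ this
    rw [← h3, h2, h4]
  have hg : ∀ x, ∃ g : ℂ → ℂ, AnalyticAt ℂ g x ∧ g x ≠ 0 ∧ F =ᶠ[𝓝[≠] x] g := by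
    intro x
    obtain ⟨g, hga, hg0, hg⟩ := (meromorphicOrderAt_eq_int_iff (hF x) (n := 0)).1 (by
      rw [h0 x]; rfl)
    refine ⟨g, hga, hg0, ?_⟩
    filter_upwards [hg] with z hz
    rw [hz]
    simp
  have hord : ∀ x, 0 ≤ meromorphicOrderAt (logDeriv F) x := by
    intro x
    obtain ⟨g, hga, hg0, hg⟩ := hg x
    have h1 : logDeriv F =ᶠ[𝓝[≠] x] logDeriv g := logDeriv_congr_nhdsNE hg
    rw [meromorphicOrderAt_congr h1]
    have h2 : AnalyticAt ℂ (logDeriv g) x := hga.deriv.div hga hg0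
    exact h2.meromorphicOrderAt_nonneg
  obtain ⟨A, hA⟩ := liouville hH hord
  have hEa : ∀ x, AnalyticAt ℂ (fun z : ℂ => Complex.exp (-(A * z))) x := fun x => by fun_prop
  obtain ⟨C, hC⟩ : ∃ C : ℂ, (fun z => F z * Complex.exp (-(A * z))) =ᶠ[codiscrete ℂ]
      fun _ => C := by
    apply const_of_deriv
    · exact fun x => (hF x).fun_mul (hEa x).meromorphicAt
    · intro x
      have h1 : meromorphicOrderAt (fun z => F z * Complex.exp (-(A * z))) x =
          meromorphicOrderAt F x + meromorphicOrderAt (fun z : ℂ => Complex.exp (-(A * z))) x :=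
        meromorphicOrderAt_mul (hF x) (hEa x).meromorphicAt
      rw [h1, h0 x, zero_add]
      exact (hEa x).meromorphicOrderAt_nonneg
    · intro x
      have h3 : ∀ᶠ z in 𝓝[≠] x, F z ≠ 0 :=
        (meromorphicOrderAt_ne_top_iff_eventually_ne_zero (hF x)).1 (by rw [h0 x]; simp)
      filter_upwards [nhdsNE_of_codisc hA x, (hF x).eventually_analyticAt, h3] with z h1 h2 h4
      have d1 : HasDerivAt (fun z : ℂ => Complex.exp (-(A * z)))
          (Complex.exp (-(A * z)) * (-(A * 1))) z :=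
        (((hasDerivAt_id z).const_mul A).fun_neg).cexp
      have d2 := h2.differentiableAt.hasDerivAt.fun_mul d1
      rw [d2.deriv]
      rw [logDeriv_apply, div_eq_iff h4] at h1
      rw [h1]
      ring
  have hF2 : F =ᶠ[codiscrete ℂ] fun z => C * Complex.exp (A * z) := by
    filter_upwards [hC] with z hz
    rw [← hz, mul_assoc, ← Complex.exp_add, neg_add_cancel, Complex.exp_zero, mul_one]
  refine ⟨A, C, ?_, hF2⟩
  rintro rfl
  have h1 := nhdsNE_of_codisc hF2 0
  have h3 : ∀ᶠ z in 𝓝[≠] (0 : ℂ), F z ≠ 0 :=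
    (meromorphicOrderAt_ne_top_iff_eventually_ne_zero (hF 0)).1 (by rw [h0 0]; simp)
  obtain ⟨z, h4, h5⟩ := (h1.and h3).exists
  exact h5 (by rw [h4]; exact zero_mul _)

/-- rational numbers with a common denominator -/
lemma common_den {r : ℕ} (c : Fin r → ℚ) : ∃ (n : ℕ) (m : Fin r → ℤ), 0 < n ∧
    ∀ s, (n : ℚ) * c s = m s := by
  refine ⟨∏ s, (c s).den, fun s => (c s).num * ∏ t ∈ Finset.univ.erase s, ((c t).den : ℤ),
    Finset.prod_pos fun s _ => (c s).den_pos, fun s => ?_⟩
  rw [← Finset.mul_prod_erase Finset.univ (fun s => (c s).den) (Finset.mem_univ s)]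
  push_cast
  have h1 : (c s) * (c s).den = (c s).num := Rat.mul_den_eq_num _
  linear_combination (∏ t ∈ Finset.univ.erase s, ((c t).den : ℚ)) * h1

theorem t_NX : Pool.Agent.K1H83.NS.S_NX := by
  classical
  intro L r U q γ a b d hd hU hU0 h ψ
  let M : Fin r → ℂ → ℂ := fun s z => U s z * sF L (q s) z ^ (-(d : ℤ))
  have hMm : ∀ s, Meromorphic (M s) := fun s x =>
    ((hU s).1 x).fun_mul ((mero_sF (q s) x).fun_zpow (-(d : ℤ)))
  have hM0 : ∀ s, ¬ M s =ᶠ[codiscrete ℂ] fun _ => 0 := by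
    intro s hs
    apply hU0 s
    apply codisc_of_nhdsNE
    intro x
    filter_upwards [nhdsNE_of_codisc hs x, lat_nhdsNE (L := L) x,
      lat_add_nhdsNE (L := L) (q s) x] with z h1 h2 h3
    rcases mul_eq_zero.1 h1 with h4 | h4
    · exact h4
    · exact absurd h4 (zpow_ne_zero _ (sF_ne h2 h3))
  have hord : ∀ s x, meromorphicOrderAt (M s) x ≠ ⊤ := fun s x => order_ne_top (hMm s) (hM0 s) x
  have hordU : ∀ s x, meromorphicOrderAt (U s) x ≠ ⊤ :=
    fun s x => order_ne_top (hU s).1 (hU0 s) x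
  let ρ : ℂ → Fin r → ℤ := fun x s => (meromorphicOrderAt (M s) x).untop₀
  have hρ : ∀ x s, meromorphicOrderAt (M s) x = (ρ x s : ℤ) := fun x s =>
    (WithTop.coe_untop₀_of_ne_top (hord s x)).symm
  have hMl : ∀ s x, ∀ᶠ z in 𝓝[≠] x,
      logDeriv (M s) z = deriv (U s) z / U s z - d * sT L (q s) z := by
    intro s x
    filter_upwards [lat_nhdsNE (L := L) x, lat_add_nhdsNE (L := L) (q s) x,
      ((hU s).1 x).eventually_analyticAt, (mero_sF (L := L) (q s) x).eventually_analyticAt,
      (meromorphicOrderAt_ne_top_iff_eventually_ne_zero ((hU s).1 x)).1 (hordU s x)]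
      with z h2 h3 h4 h5 h6
    have h7 := sF_ne h2 h3
    have h8 : logDeriv (M s) z = logDeriv (U s) z + logDeriv (fun z => sF L (q s) z ^ (-(d : ℤ))) z :=
      logDeriv_mul (f := U s) (g := fun z => sF L (q s) z ^ (-(d : ℤ))) z h6
        (zpow_ne_zero _ h7) h4.differentiableAt (h5.differentiableAt.zpow (Or.inl h7))
    rw [h8, logDeriv_fun_zpow h5.differentiableAt, logDeriv_sF h2 h3, logDeriv_apply]
    push_cast
    ring
  have hrel : ∀ x, (fun z => ∑ s, γ s * logDeriv (M s) z + a + b * ℘[L] z)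
      =ᶠ[𝓝[≠] x] fun _ => 0 := by
    intro x
    filter_upwards [nhdsNE_of_codisc h x, eventually_all.2 fun s => hMl s x] with z h1 h2
    rw [← h1]
    simp only [h2]
  have hres := residues γ a b hMm hρ hrel
  obtain ⟨n0, m, hn0, hm⟩ := common_den fun s => ψ (γ s)
  have hzero : ∀ x, ∑ s, m s * ρ x s = 0 := by
    intro x
    have h1 : ∑ s, (ρ x s : ℚ) • γ s = 0 := by
      rw [← hres x]
      refine Finset.sum_congr rfl fun s _ => ?_
      rw [Rat.smul_def, mul_comm]
      push_cast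
      rfl
    have h2 : ∑ s, (ρ x s : ℚ) * ψ (γ s) = 0 := by
      have := congrArg ψ h1
      rw [map_sum, map_zero] at this
      rw [← this]
      exact Finset.sum_congr rfl fun s _ => by rw [map_smul, smul_eq_mul]
    have h3 : ((∑ s, m s * ρ x s : ℤ) : ℚ) = 0 := by
      push_cast
      have h4 : ∀ s, ((m s : ℤ) : ℚ) * (ρ x s : ℚ) = n0 * ((ρ x s : ℚ) * ψ (γ s)) := by
        intro s
        rw [← hm s]
        ring
      rw [Finset.sum_congr rfl fun s _ => h4 s, ← Finset.mul_sum, h2, mul_zero]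
    exact_mod_cast h3
  let F : ℂ → ℂ := fun z => ∏ s, M s z ^ m s
  have hFm : Meromorphic F := by
    intro x
    have : MeromorphicAt (∏ s, (fun z => M s z ^ m s)) x :=
      MeromorphicAt.prod fun s _ => (hMm s x).fun_zpow (m s)
    have e : F = (∏ s, (fun z => M s z ^ m s)) := by
      funext z; simp [F]
    rw [e]; exact this
  have hF0 : ∀ x, meromorphicOrderAt F x = 0 := by
    intro x
    have h1 : meromorphicOrderAt F x = ∑ s, meromorphicOrderAt (fun z => M s z ^ m s) x :=
      meromorphicOrderAt_fun_prod (f := fun s z => M s z ^ m s)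
        (fun s _ => (hMm s x).zpow (m s))
    rw [h1]
    have h2 : ∀ s, meromorphicOrderAt (fun z => M s z ^ m s) x =
        ((m s * ρ x s : ℤ) : WithTop ℤ) := by
      intro s
      have h3 : meromorphicOrderAt (M s ^ m s) x = _ := meromorphicOrderAt_zpow (hMm s x)
      change meromorphicOrderAt (M s ^ m s) x = _
      rw [h3, hρ x s]
      push_cast
      rfl
    rw [Finset.sum_congr rfl fun s _ => h2 s]
    have h4 : ∑ s, ((m s * ρ x s : ℤ) : WithTop ℤ) = ((∑ s, m s * ρ x s : ℤ) : WithTop ℤ) := by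
      norm_cast
    rw [h4, hzero x]
    rfl
  have hFl : ∀ l ∈ L.lattice, (fun z => F (z + l)) =ᶠ[codiscrete ℂ]
      fun z => Complex.exp (∑ s, (m s : ℂ) * (-(d : ℂ) * kap L (q s) l)) * F z := by
    intro l hl
    have h1 : ∀ᶠ z in codiscrete ℂ, ∀ s, U s (z + l) = U s z :=
      eventually_all.2 fun s => (hU s).2 l hl
    filter_upwards [h1] with z hz
    simp only [F, M]
    rw [Complex.exp_sum, ← Finset.prod_mul_distrib]
    refine Finset.prod_congr rfl fun s _ => ?_
    have e1 : (Complex.exp (kap L (q s) l) * sF L (q s) z) ^ (-(d : ℤ)) =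
        Complex.exp (-(d : ℂ) * kap L (q s) l) * sF L (q s) z ^ (-(d : ℤ)) := by
      rw [mul_zpow, ← Complex.exp_int_mul]
      push_cast
      rfl
    rw [hz s, sF_add hl, e1, Complex.exp_int_mul, ← mul_zpow]
    congr 1
    ring
  obtain ⟨A, C, hC, hFE⟩ := exp_of_mult hFm hF0 hFl
  have hper : ∀ l ∈ L.lattice, ∃ k : ℤ, A * l + d * ∑ s, (m s : ℂ) * kap L (q s) l =
      k * (2 * Real.pi * Complex.I) := by
    intro l hl
    have h1 := nhdsNE_of_codisc hFE 0
    have h2 := (tendsto_addNE l 0).eventually (nhdsNE_of_codisc hFE (0 + l))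
    have h3 := nhdsNE_of_codisc (hFl l hl) 0
    obtain ⟨z, h4, h5, h6⟩ := (h1.and (h2.and h3)).exists
    beta_reduce at h4 h5 h6
    rw [h5, h4] at h6
    have h7 : Complex.exp (A * (z + l)) =
        Complex.exp ((∑ s, (m s : ℂ) * (-(d : ℂ) * kap L (q s) l)) + A * z) := by
      rw [Complex.exp_add]
      apply mul_left_cancel₀ hC
      rw [h6]
      ring
    rw [Complex.exp_eq_exp_iff_exists_int] at h7
    obtain ⟨k, hk⟩ := h7
    refine ⟨k, ?_⟩
    have e : ∑ s, (m s : ℂ) * (-(d : ℂ) * kap L (q s) l) =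
        -(d * ∑ s, (m s : ℂ) * kap L (q s) l) := by
      rw [Finset.mul_sum, ← Finset.sum_neg_distrib]
      exact Finset.sum_congr rfl fun s _ => by ring
    rw [e] at hk
    linear_combination hk
  set Q : ℂ := ∑ s, (m s : ℂ) * (if q s ∈ L.lattice then 0 else q s) with hQ
  set Z : ℂ := ∑ s, (m s : ℂ) * (if q s ∈ L.lattice then 0 else zeta L (q s)) with hZ
  have hk : ∀ l, ∑ s, (m s : ℂ) * kap L (q s) l = eta L l * Q - Z * l := by
    intro l
    rw [hQ, hZ, Finset.mul_sum, Finset.sum_mul, ← Finset.sum_sub_distrib]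
    refine Finset.sum_congr rfl fun s _ => ?_
    unfold kap
    split_ifs
    · ring
    · ring
  obtain ⟨k1, hk1⟩ := hper _ L.ω₁_mem_lattice
  obtain ⟨k2, hk2⟩ := hper _ L.ω₂_mem_lattice
  rw [hk] at hk1 hk2
  obtain ⟨n, hn, hleg⟩ := legendre L
  have hpi : (2 * Real.pi * Complex.I : ℂ) ≠ 0 := Complex.two_pi_I_ne_zero
  have hdQ : (d : ℂ) * n * Q = k2 * L.ω₁ - k1 * L.ω₂ := by
    apply mul_right_cancel₀ hpi
    linear_combination L.ω₁ * hk2 - L.ω₂ * hk1 - (d : ℂ) * Q * hleg
  have hdQ' : (d : ℂ) * n * Q ∈ L.lattice := by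
    rw [hdQ, PeriodPair.mem_lattice]
    exact ⟨k2, -k1, by push_cast; ring⟩
  have habs : (d : ℂ) * (n.natAbs : ℂ) * Q ∈ L.lattice := by
    rcases Int.natAbs_eq n with h1 | h1
    · have : (n : ℂ) = (n.natAbs : ℂ) := by
        have := congrArg (fun t : ℤ => (t : ℂ)) h1
        simpa using this
      rwa [this] at hdQ'
    · have : (n : ℂ) = -(n.natAbs : ℂ) := by
        have := congrArg (fun t : ℤ => (t : ℂ)) h1
        simpa using this
      rw [this] at hdQ'
      have h2 := L.lattice.neg_mem hdQ'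
      convert h2 using 1
      ring
  have hlat : ∑ s, (m s : ℂ) * (if q s ∈ L.lattice then q s else 0) ∈ L.lattice := by
    refine Submodule.sum_mem _ fun s _ => ?_
    split_ifs with hs
    · have := L.lattice.smul_mem (m s) hs
      simpa [zsmul_eq_mul] using this
    · rw [mul_zero]; exact L.lattice.zero_mem
  have hsum : ∑ s, (m s : ℂ) * q s = Q + ∑ s, (m s : ℂ) * (if q s ∈ L.lattice then q s else 0) := by
    rw [hQ, ← Finset.sum_add_distrib]
    refine Finset.sum_congr rfl fun s _ => ?_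
    split_ifs <;> ring
  refine ⟨n.natAbs * d * n0, ?_, ?_⟩
  · have : 0 < n.natAbs := Int.natAbs_pos.2 hn
    have : 0 < d := Nat.pos_of_ne_zero hd
    positivity
  · have h1 : ((n.natAbs * d * n0 : ℕ) : ℂ) * ∑ s, ((ψ (γ s) : ℚ) : ℂ) * q s =
        (d : ℂ) * (n.natAbs : ℂ) * ∑ s, (m s : ℂ) * q s := by
      rw [Finset.mul_sum, Finset.mul_sum]
      refine Finset.sum_congr rfl fun s _ => ?_
      have h2 : (n0 : ℂ) * ((ψ (γ s) : ℚ) : ℂ) = (m s : ℂ) := by
        have := congrArg (fun t : ℚ => (t : ℂ)) (hm s)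
        push_cast at this
        exact this
      push_cast
      linear_combination (n.natAbs : ℂ) * d * q s * h2
    rw [h1, hsum, mul_add]
    refine Submodule.add_mem _ habs ?_
    have := L.lattice.smul_mem ((d * n.natAbs : ℕ) : ℤ) hlat
    rw [zsmul_eq_mul, Int.cast_natCast, Nat.cast_mul] at this
    exact this

end Pool.Agent.K1H97.NS
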